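import Mathlib
import Pool.Agent.Results.MP_3f8e47_nt.FareyTreeOfJumps
import Pool.Agent.Results.MP_3f8e47_nt.EveryTimePowerSaving
import Pool.Agent.R105.GD.Tri2

/-!
# The gcd recursion for prime triples: the limit superior of `f(N) / N`

`limsup f(N) / N` is `1` if there are infinitely many prime triples `(p, p + 2, p + 6)`, and at most
`3 / 4` otherwise. Each of the two questions of the problem alone implies that there are infinitely
many prime triples, and `liminf f(N) / N > 3 / 4` implies Q1 for all large `N`.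
-/

set_option autoImplicit false

namespace Pool.Agent.Results.MP_3f8e47_nt.DichotomyForTriples

open Filter Topology

/-- The 3-periodic sequence `2, 6, 0, 2, 6, 0, …` (indexed from 1). -/
def b (n : ℕ) : ℕ := if n % 3 = 1 then 2 else if n % 3 = 2 then 6 else 0

/-- the recursion `a_N`: `a_N(1) = N - 6`, `a_N(n) = a_N(n-1) - gcd(a_N(n-1), n + b(n))` for
`n ≥ 2` (and `a_N(0) = 0`, not used) -/
noncomputable def a (N : ℕ) : ℕ → ℤ
  | 0 => 0
  | 1 => (N : ℤ) - 6
  | (n + 2) => a N (n + 1) - ((Int.gcd (a N (n + 1)) ((n + 2 + b (n + 2) : ℕ) : ℤ) : ℕ) : ℤ)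

/-- `f(N)`: the least `n ≥ 1` with `a_N(n) = 0` -/
noncomputable def f (N : ℕ) : ℕ := sInf {n : ℕ | 1 ≤ n ∧ a N n = 0}

/-- `p`, `p + 2`, `p + 6` are primes. -/
def Triple (p : ℕ) : Prop := p.Prime ∧ (p + 2).Prime ∧ (p + 6).Prime

lemma a_one (N : ℕ) : a N 1 = (N : ℤ) - 6 := by rw [a]

lemma a_rec (N : ℕ) (n : ℕ) (hn : 2 ≤ n) :
    a N n = a N (n - 1) - ((Int.gcd (a N (n - 1)) ((n + b n : ℕ) : ℤ) : ℕ) : ℤ) := by
  obtain ⟨k, rfl⟩ : ∃ k, n = k + 2 := ⟨n - 2, by omega⟩
  rw [a]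
  rfl

lemma a_eq (N n : ℕ) : a N n = Pool.Agent.R105.GD.aa N n := by
  induction n using Nat.strong_induction_on with
  | _ n ih =>
    match n with
    | 0 => rw [a, Pool.Agent.R105.GD.aa]
    | 1 => rw [a, Pool.Agent.R105.GD.aa]
    | n + 2 =>
      rw [a, Pool.Agent.R105.GD.aa, ih (n + 1) (by omega)]
      rfl

lemma f_eq (N : ℕ) : f N = Pool.Agent.R105.GD.ff N := by
  unfold f Pool.Agent.R105.GD.ff
  simp only [a_eq]

lemma f_isLeast (N : ℕ) (hN : 6 ≤ N) : IsLeast {n : ℕ | 1 ≤ n ∧ a N n = 0} (f N) := by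
  have h := Pool.Agent.R105.GD.ff_isLeast N hN
  rw [← f_eq] at h
  simpa only [a_eq] using h

lemma f_le (N : ℕ) (hN : 7 ≤ N) : f N + 5 ≤ N := by
  have h := Pool.Agent.R105.GD.ff_le_of N (by omega) 1 le_rfl (by
    rw [← a_eq, a_one]
    omega)
  rw [← f_eq, ← a_eq, a_one] at h
  push_cast at h
  omega

lemma b_cases (n : ℕ) : b n = 0 ∨ b n = 2 ∨ b n = 6 := by
  unfold b
  split_ifs <;> simp

lemma prime_add_b {p : ℕ} (h : Triple p) (n : ℕ) : (p + b n).Prime := by
  rcases b_cases n with h1 | h1 | h1 <;> rw [h1]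
  · exact h.1
  · exact h.2.1
  · exact h.2.2

/-- Once `a_N(m) + m + 1` is a triple, there are no more jumps. -/
lemma a_absorb {p N m : ℕ} (h : Triple p) (hm : 1 ≤ m) (h0 : a N m = (p : ℤ) - 1 - m) (n : ℕ)
    (hn : m ≤ n) : n + 1 ≤ p → a N n = (p : ℤ) - 1 - n := by
  induction n, hn using Nat.le_induction with
  | base =>
    intro _
    exact h0
  | succ n hn ih =>
    intro hp
    have h1 := ih (by omega)
    rw [a_rec N (n + 1) (by omega), Nat.add_sub_cancel, h1]
    have hP := prime_add_b h (n + 1)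
    obtain ⟨x, hx⟩ : ∃ x : ℕ, x + (n + 1) = p := ⟨p - (n + 1), by omega⟩
    have hx0 : 0 < x := by omega
    have e1 : (p : ℤ) - 1 - n = (x : ℤ) := by
      have : (p : ℤ) = x + (n + 1) := by exact_mod_cast hx.symm
      linarith
    have hg : Nat.gcd x (n + 1 + b (n + 1)) = 1 := by
      have e2 : x + (n + 1 + b (n + 1)) = p + b (n + 1) := by omega
      have hc : Nat.Coprime (p + b (n + 1)) x :=
        (Nat.Prime.coprime_iff_not_dvd hP).2 (Nat.not_dvd_of_pos_of_lt hx0 (by omega))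
      rw [← e2, Nat.coprime_comm] at hc
      have := hc
      rwa [Nat.coprime_self_add_right] at this
    rw [e1, Int.gcd_natCast_natCast, hg]
    have : (p : ℤ) = x + (n + 1) := by exact_mod_cast hx.symm
    push_cast
    linarith

lemma f_absorb {N m p : ℕ} (hN : 6 ≤ N) (hm : 1 ≤ m) (hmf : m ≤ f N) (h : Triple p)
    (h0 : a N m + m + 1 = p) : f N + 1 = p := by
  have hL := f_isLeast N hN
  have hz : a N (f N) = 0 := hL.1.2
  have hpos : 0 ≤ a N m := by
    rcases hmf.lt_or_eq with h1 | h1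
    · have := (Pool.Agent.R105.GD.aa_pos N m hm
        (fun k hk1 hk2 => Pool.Agent.R105.GD.ff_ne N hN k hk1 (by rw [← f_eq]; omega)) hN).1
      rw [← a_eq] at this
      omega
    · rw [h1, hz]
  have hmp : m + 1 ≤ p := by omega
  have h1 : a N m = (p : ℤ) - 1 - m := by omega
  have h2 := a_absorb h hm h1 (p - 1) (by omega) (by omega)
  have h3 : a N (p - 1) = 0 := by
    rw [h2]
    omega
  have h4 : f N ≤ p - 1 := hL.2 ⟨by omega, h3⟩
  have h5 := a_absorb h hm h1 (f N) hmf (by omega)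
  omega

lemma f_triple {p : ℕ} (h : Triple p) : f (p + 4) + 1 = p := by
  have hp2 := h.1.two_le
  have hL := f_isLeast (p + 4) (by omega)
  refine f_absorb (m := 1) (by omega) le_rfl hL.1.1 h ?_
  rw [a_one]
  push_cast
  ring

lemma mod_six {p : ℕ} (h : Triple p) : ∃ k : ℕ, p = 6 * k + 5 := by
  obtain ⟨h1, h2, h3⟩ := h
  have hp := h1.two_le
  have e2 : p % 2 = 1 := by
    rcases h1.eq_two_or_odd with h4 | h4
    · rw [h4] at h2
      norm_num at h2
    · exact h4
  have e3 : p % 3 = 2 := by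
    by_contra hcon
    have h4 : p % 3 = 0 ∨ p % 3 = 1 := by omega
    rcases h4 with h4 | h4
    · have h5 : p = 3 := by
        have := (Nat.prime_dvd_prime_iff_eq Nat.prime_three h1).1 (Nat.dvd_of_mod_eq_zero h4)
        omega
      rw [h5] at h3
      norm_num at h3
    · have := (Nat.prime_dvd_prime_iff_eq Nat.prime_three h2).1
        (Nat.dvd_of_mod_eq_zero (by omega))
      omega
  exact ⟨p / 6, by omega⟩

lemma f_triple' {p : ℕ} (h : Triple p) : f (p + 6) + 1 = p := by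
  obtain ⟨k, hk⟩ := mod_six h
  have hL := f_isLeast (p + 6) (by omega)
  have hz : a (p + 6) (f (p + 6)) = 0 := hL.1.2
  have a1 : a (p + 6) 1 = (6 * k + 5 : ℕ) := by
    rw [a_one, hk]
    push_cast
    ring
  have g2 : Nat.gcd (6 * k + 5) 8 = 1 := by
    rw [Nat.gcd_comm, Nat.gcd_rec]
    have h8 : (6 * k + 5) % 8 = 1 ∨ (6 * k + 5) % 8 = 3 ∨ (6 * k + 5) % 8 = 5 ∨
        (6 * k + 5) % 8 = 7 := by omega
    rcases h8 with h8 | h8 | h8 | h8 <;> rw [h8] <;> norm_num
  have a2 : a (p + 6) 2 = (6 * k + 4 : ℕ) := by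
    have e : (2 + b 2 : ℕ) = 8 := by norm_num [b]
    rw [a_rec (p + 6) 2 le_rfl, show (2 - 1 : ℕ) = 1 from rfl, a1, e, Int.gcd_natCast_natCast, g2]
    push_cast
    ring
  have g3 : Nat.gcd (6 * k + 4) 3 = 1 := by
    rw [Nat.gcd_comm, Nat.gcd_rec, show (6 * k + 4) % 3 = 1 by omega]
    norm_num
  have a3 : a (p + 6) 3 = (6 * k + 3 : ℕ) := by
    have e : (3 + b 3 : ℕ) = 3 := by norm_num [b]
    rw [a_rec (p + 6) 3 (by omega), show (3 - 1 : ℕ) = 2 from rfl, a2, e, Int.gcd_natCast_natCast,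
      g3]
    push_cast
    ring
  have g4 : Nat.gcd (6 * k + 3) 6 = 3 := by
    rw [Nat.gcd_comm, Nat.gcd_rec, show (6 * k + 3) % 6 = 3 by omega]
    norm_num
  have a4 : a (p + 6) 4 = (6 * k : ℕ) := by
    have e : (4 + b 4 : ℕ) = 6 := by norm_num [b]
    rw [a_rec (p + 6) 4 (by omega), show (4 - 1 : ℕ) = 3 from rfl, a3, e, Int.gcd_natCast_natCast,
      g4]
    push_cast
    ring
  have h4 : 4 ≤ f (p + 6) := by
    by_contra hcon
    have hf1 := hL.1.1
    have h5 : f (p + 6) = 1 ∨ f (p + 6) = 2 ∨ f (p + 6) = 3 := by omega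
    rcases h5 with h5 | h5 | h5 <;> rw [h5] at hz <;> omega
  refine f_absorb (m := 4) (by omega) (by norm_num) h4 h ?_
  rw [a4, hk]
  push_cast
  ring

lemma triple_of_large {N : ℕ} (hN : 2100 ≤ N) (h : 4 * N ≤ 5 * f N) : Triple (f N + 1) := by
  have := Pool.Agent.R105.GD.ff_primes N hN (by rw [← f_eq]; exact h)
  rw [← f_eq] at this
  exact this

lemma f_lower : ∃ c : ℝ, 0 < c ∧ ∃ N₀ : ℕ, ∀ N : ℕ, N₀ ≤ N →
    c * (√(N : ℝ) * (Real.log N / Real.log (Real.log N))) < f N := by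
  obtain ⟨c, hc, N₀, h⟩ := FareyTreeOfJumps.result
  refine ⟨c, hc, max N₀ 6, fun N hN => ?_⟩
  exact (h N ((le_max_left _ _).trans hN) (a N) (a_one N) (fun n hn => a_rec N n hn)).2 (f N)
    (f_isLeast N ((le_max_right _ _).trans hN))

lemma f_tendsto : Tendsto (fun N : ℕ => (f N : ℝ)) atTop atTop := by
  obtain ⟨c, hc, N₀, h⟩ := f_lower
  have ht : Tendsto (fun N : ℕ => c * √(N : ℝ)) atTop atTop :=
    (Real.tendsto_sqrt_atTop.comp tendsto_natCast_atTop_atTop).const_mul_atTop hc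
  refine tendsto_atTop_mono' _ ?_ ht
  filter_upwards [eventually_ge_atTop (max N₀ 3)] with N hN
  have h1 := h N ((le_max_left _ _).trans hN)
  have hN3 : (3 : ℝ) ≤ N := by exact_mod_cast (le_max_right _ _).trans hN
  have hlog : 1 < Real.log N := by
    rw [Real.lt_log_iff_exp_lt (by linarith)]
    exact lt_of_lt_of_le (lt_trans Real.exp_one_lt_d9 (by norm_num)) hN3
  have hll : 0 < Real.log (Real.log N) := Real.log_pos hlog
  have h2 : Real.log (Real.log N) ≤ Real.log N :=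
    (Real.log_le_sub_one_of_pos (by linarith)).trans (by linarith)
  have h3 : 1 ≤ Real.log N / Real.log (Real.log N) := (one_le_div hll).2 h2
  have h4 : c * √(N : ℝ) ≤ c * (√(N : ℝ) * (Real.log N / Real.log (Real.log N))) := by
    refine mul_le_mul_of_nonneg_left ?_ hc.le
    exact le_mul_of_one_le_right (Real.sqrt_nonneg _) h3
  exact (h4.trans h1.le)

lemma ratio_le (N : ℕ) : (f N : ℝ) / N ≤ 1 ∨ N < 7 := by
  by_cases h : N < 7
  · exact Or.inr h
  · left
    push Not at h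
    have := f_le N h
    rw [div_le_one (by exact_mod_cast (by omega : 0 < N))]
    exact_mod_cast (by omega : f N ≤ N)

lemma bdd_above : IsBoundedUnder (· ≤ ·) atTop fun N : ℕ => (f N : ℝ) / N := by
  refine ⟨1, ?_⟩
  rw [eventually_map]
  filter_upwards [eventually_ge_atTop 7] with N hN
  exact (ratio_le N).resolve_right (by omega)

lemma bdd_below : IsBoundedUnder (· ≥ ·) atTop fun N : ℕ => (f N : ℝ) / N :=
  ⟨0, by
    rw [eventually_map]
    exact Eventually.of_forall fun N => by positivity⟩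

lemma limsup_le_one : limsup (fun N : ℕ => (f N : ℝ) / N) atTop ≤ 1 := by
  refine limsup_le_of_le bdd_below.isCoboundedUnder_le ?_
  filter_upwards [eventually_ge_atTop 7] with N hN
  exact (ratio_le N).resolve_right (by omega)

lemma inf_of_freq (h : {N : ℕ | Triple (f N + 1)}.Infinite) : {p : ℕ | Triple p}.Infinite := by
  intro hfin
  obtain ⟨B, hB⟩ := hfin.bddAbove
  have h1 := f_tendsto.eventually_gt_atTop (B : ℝ)
  obtain ⟨N, hN1, hN2⟩ := ((Nat.frequently_atTop_iff_infinite.2 h).and_eventually h1).exists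
  have h2 : f N + 1 ≤ B := hB hN1
  have h3 : (B : ℕ) < f N := by exact_mod_cast hN2
  omega

lemma tfae : [{p : ℕ | Triple p}.Infinite, {N : ℕ | f N + 5 = N}.Infinite,
    limsup (fun N : ℕ => (f N : ℝ) / N) atTop = 1,
    3 / 4 < limsup (fun N : ℕ => (f N : ℝ) / N) atTop,
    {N : ℕ | Triple (f N + 1)}.Infinite].TFAE := by
  tfae_have 1 → 2 := by
    intro h
    refine (h.image (f := fun p => p + 4) (fun x _ y _ hxy => by simpa using hxy)).mono ?_
    rintro _ ⟨p, hp, rfl⟩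
    have := f_triple hp
    show f (p + 4) + 5 = p + 4
    omega
  tfae_have 2 → 3 := by
    intro h
    refine le_antisymm limsup_le_one ?_
    refine le_of_forall_pos_sub_le fun ε hε => ?_
    refine le_limsup_of_frequently_le ?_ bdd_above
    have h1 : ∀ᶠ N : ℕ in atTop, 5 / ε ≤ N := tendsto_natCast_atTop_atTop.eventually_ge_atTop _
    refine ((Nat.frequently_atTop_iff_infinite.2 h).and_eventually h1).mono ?_
    rintro N ⟨hN1, hN2⟩
    have hN1' : (f N : ℝ) + 5 = N := by exact_mod_cast hN1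
    have hN0 : (0 : ℝ) < N := by
      have : (0 : ℝ) < 5 / ε := by positivity
      linarith
    rw [div_le_iff₀ hε] at hN2
    rw [le_div_iff₀ hN0]
    nlinarith
  tfae_have 3 → 4 := by
    intro h
    rw [h]
    norm_num
  tfae_have 4 → 5 := by
    intro h
    obtain ⟨r, hr1, hr2⟩ := exists_between h
    obtain ⟨N₀, hN₀⟩ := ThreeQuarters.result.2 (r - 3 / 4) (by linarith)
    have h1 := frequently_lt_of_lt_limsup bdd_below.isCoboundedUnder_le hr2
    refine Nat.frequently_atTop_iff_infinite.1 ?_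
    refine (h1.and_eventually (eventually_ge_atTop (max N₀ 6))).mono ?_
    rintro N ⟨hN1, hN2⟩
    have hN0 : (0 : ℝ) < N := by
      have : 6 ≤ N := (le_max_right _ _).trans hN2
      exact_mod_cast (by omega : 0 < N)
    refine hN₀ N ((le_max_left _ _).trans hN2) (a N) (a_one N) (fun n hn => a_rec N n hn) (f N)
      (f_isLeast N ((le_max_right _ _).trans hN2)) ?_
    rw [lt_div_iff₀ hN0] at hN1
    linarith
  tfae_have 5 → 1 := inf_of_freq
  tfae_finish

lemma of_liminf (h : 3 / 4 < liminf (fun N : ℕ => (f N : ℝ) / N) atTop) :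
    (∀ᶠ N : ℕ in atTop, Triple (f N + 1)) ∧
      ∀ r : ℝ, r < liminf (fun N : ℕ => (f N : ℝ) / N) atTop →
        ∀ᶠ N : ℕ in atTop, ∃ p : ℕ, Triple p ∧ p ≤ N ∧ r * N < p := by
  have key : ∀ r : ℝ, r < liminf (fun N : ℕ => (f N : ℝ) / N) atTop →
      ∀ᶠ N : ℕ in atTop, r * N < f N := by
    intro r hr
    filter_upwards [eventually_lt_of_lt_liminf hr bdd_below, eventually_ge_atTop 1] with N hN1 hN2
    have hN0 : (0 : ℝ) < N := by exact_mod_cast hN2
    rwa [lt_div_iff₀ hN0] at hN1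
  have hQ1 : ∀ᶠ N : ℕ in atTop, Triple (f N + 1) := by
    obtain ⟨r, hr1, hr2⟩ := exists_between h
    obtain ⟨N₀, hN₀⟩ := ThreeQuarters.result.2 (r - 3 / 4) (by linarith)
    filter_upwards [key r hr2, eventually_ge_atTop (max N₀ 6)] with N hN1 hN2
    refine hN₀ N ((le_max_left _ _).trans hN2) (a N) (a_one N) (fun n hn => a_rec N n hn) (f N)
      (f_isLeast N ((le_max_right _ _).trans hN2)) ?_
    linarith
  refine ⟨hQ1, fun r hr => ?_⟩
  filter_upwards [hQ1, key r hr, eventually_ge_atTop 7] with N h1 h2 h3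
  have h4 := f_le N h3
  refine ⟨f N + 1, h1, by omega, ?_⟩
  push_cast
  linarith

/-- (1) If `a_N(m) + m + 1 = p` at some time `1 ≤ m ≤ f(N)` for a prime triple `(p, p + 2, p + 6)`,
then `f(N) = p - 1`; so `f(p + 4) = f(p + 6) = p - 1` for every prime triple, and `f(p + 4) = p - 1`
only for these if `p ≥ 2100`. (2) Equivalent are: there are infinitely many prime triples; `f(N) = N - 5` for
infinitely many `N`; `limsup f(N) / N = 1`; `limsup f(N) / N > 3 / 4`; `f(N) + 1, f(N) + 3, f(N) + 7`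
are prime for infinitely many `N`. (3) If there are only finitely many prime triples, then
`f(N) ≤ 3 N / 4 + C N ^ (1 - δ)` for all large `N`. (4) If Q1 is true (for all large `N`), then there
are infinitely many prime triples, and one with `c √N log N / log log N < p ≤ N` for all large `N`.
(5) If `L = liminf f(N) / N > 3 / 4`, then Q1 is true for all large `N`, and for every `r < L` and
all large `N` there is a prime triple with `r N < p ≤ N`. (6) If Q2 is true, then `L = 1`. -/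
theorem result :
    ((∀ N m p : ℕ, 6 ≤ N → 1 ≤ m → m ≤ f N → Triple p → a N m + m + 1 = p → f N + 1 = p) ∧
      (∀ p : ℕ, Triple p → f (p + 4) + 1 = p ∧ f (p + 6) + 1 = p) ∧
      ∀ p : ℕ, 2100 ≤ p → f (p + 4) + 1 = p → Triple p) ∧
    [{p : ℕ | Triple p}.Infinite, {N : ℕ | f N + 5 = N}.Infinite,
      limsup (fun N : ℕ => (f N : ℝ) / N) atTop = 1,
      3 / 4 < limsup (fun N : ℕ => (f N : ℝ) / N) atTop,
      {N : ℕ | Triple (f N + 1)}.Infinite].TFAE ∧
    ({p : ℕ | Triple p}.Finite → ∃ δ C : ℝ, 0 < δ ∧ 0 < C ∧ ∀ᶠ N : ℕ in atTop,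
      (f N : ℝ) ≤ 3 / 4 * N + C * (N : ℝ) ^ (1 - δ)) ∧
    ((∀ᶠ N : ℕ in atTop, Triple (f N + 1)) → {p : ℕ | Triple p}.Infinite ∧
      ∃ c : ℝ, 0 < c ∧ ∀ᶠ N : ℕ in atTop, ∃ p : ℕ, Triple p ∧ p ≤ N ∧
        c * (√(N : ℝ) * (Real.log N / Real.log (Real.log N))) < p) ∧
    (3 / 4 < liminf (fun N : ℕ => (f N : ℝ) / N) atTop →
      (∀ᶠ N : ℕ in atTop, Triple (f N + 1)) ∧
      ∀ r : ℝ, r < liminf (fun N : ℕ => (f N : ℝ) / N) atTop →
        ∀ᶠ N : ℕ in atTop, ∃ p : ℕ, Triple p ∧ p ≤ N ∧ r * N < p) ∧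
    (Tendsto (fun N : ℕ => (f N : ℝ) / N) atTop (𝓝 1) →
      liminf (fun N : ℕ => (f N : ℝ) / N) atTop = 1) := by
  refine ⟨⟨fun N m p hN hm hmf hp h0 => f_absorb hN hm hmf hp h0,
    fun p hp => ⟨f_triple hp, f_triple' hp⟩, fun p hp h => ?_⟩, tfae, fun hfin => ?_,
    fun h => ?_, of_liminf, fun h => h.liminf_eq⟩
  · have := triple_of_large (N := p + 4) (by omega) (by omega)
    rwa [h] at this
  · obtain ⟨δ, C, hδ, hC, hm⟩ := EveryTimePowerSaving.result
    refine ⟨δ, C, hδ, hC, ?_⟩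
    obtain ⟨B, hB⟩ := hfin.bddAbove
    filter_upwards [f_tendsto.eventually_gt_atTop (B : ℝ), eventually_ge_atTop 6] with N hN hN6
    rcases (hm N hN6 (a N) (a_one N) (fun n hn => a_rec N n hn) (f N)
      (f_isLeast N hN6)).2.2 with h1 | h1
    · exfalso
      have h2 : f N + 1 ≤ B := hB h1
      have h3 : (B : ℕ) < f N := by exact_mod_cast hN
      omega
    · exact h1
  · refine ⟨inf_of_freq (Nat.frequently_atTop_iff_infinite.1 h.frequently), ?_⟩
    obtain ⟨c, hc, N₀, hlow⟩ := f_lower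
    refine ⟨c, hc, ?_⟩
    filter_upwards [h, eventually_ge_atTop (max N₀ 7)] with N hN1 hN2
    have h1 := f_le N ((le_max_right _ _).trans hN2)
    refine ⟨f N + 1, hN1, by omega, ?_⟩
    have h2 := hlow N ((le_max_left _ _).trans hN2)
    push_cast
    linarith

end Pool.Agent.Results.MP_3f8e47_nt.DichotomyForTriples
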